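import Pool.Agent.T9h5.GG.Spec3
import Pool.Agent.H39R2.Gon.B

/-!
# `Final`: from function fields to all fields of transcendence degree at most one
-/

set_option autoImplicit false

namespace Pool.Agent.T9h77.GG

open H39Gon H39Gon.TaskB Pool.Agent.T9h5.GG

theorem exists_cl' {F : Type} [Field F] (s : UV F) : ∃ f : F, f ≠ 0 ∧ cl f = s := by
  refine ⟨((Additive.toMul s : Fˣ) : F), Units.ne_zero _, ?_⟩
  unfold cl
  rw [dif_neg (Units.ne_zero _)]
  simp

/-- an algebraic element of a field over `F_p` is torsion -/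
theorem tors (p : ℕ) [Fact p.Prime] {F : Type} [Field F] [Algebra (ZMod p) F] {g : F}
    (hg0 : g ≠ 0) (hg : IsAlgebraic (ZMod p) g) : ∃ n : ℕ, 0 < n ∧ n • cl g = 0 := by
  classical
  have h1 : FiniteDimensional (ZMod p) (IntermediateField.adjoin (ZMod p) {g}) :=
    IntermediateField.adjoin.finiteDimensional hg.isIntegral
  have h2 : Finite (IntermediateField.adjoin (ZMod p) {g}) :=
    Module.finite_of_finite (ZMod p)
  have hg1 : g ∈ IntermediateField.adjoin (ZMod p) {g} :=
    IntermediateField.mem_adjoin_simple_self _ _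
  set u : IntermediateField.adjoin (ZMod p) {g} := ⟨g, hg1⟩ with hu
  have hu0 : u ≠ 0 := fun h => hg0 (congrArg Subtype.val h)
  have h3 : IsOfFinOrder (Units.mk0 u hu0) := isOfFinOrder_of_finite _
  obtain ⟨n, hn, h4⟩ := isOfFinOrder_iff_pow_eq_one.1 h3
  refine ⟨n, hn, ?_⟩
  have h5 : g ^ n = 1 := by
    have h6 := congrArg (fun z : (IntermediateField.adjoin (ZMod p) {g})ˣ => ((z : _) : F)) h4
    simpa [hu] using h6
  unfold cl
  rw [dif_neg hg0, ← ofMul_pow]
  have h7 : Units.mk0 g hg0 ^ n = 1 := by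
    ext
    simpa using h5
  rw [h7]
  rfl

theorem final : Final := by
  intro hSD hFF p _ F _ _ htr m
  classical
  intro Q hQ s v
  obtain ⟨f, hf, rfl⟩ := exists_cl' s
  obtain ⟨g, hg, rfl⟩ := exists_cl' v
  by_cases halg : IsAlgebraic (ZMod p) g
  · obtain ⟨n, hn, h1⟩ := tors p hg halg
    have h2 : (n : ℤ) • Q (fun _ => cl f) (cl g) = 0 := by
      rw [← map_zsmul (Q (fun _ => cl f)), natCast_zsmul, h1, map_zero]
    rcases smul_eq_zero.1 h2 with h3 | h3
    · exact absurd h3 (by exact_mod_cast hn.ne')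
    · exact h3
  · set L : IntermediateField (ZMod p) F := IntermediateField.adjoin (ZMod p) {f, g} with hL
    have hfL : f ∈ L := IntermediateField.subset_adjoin _ _ (by simp)
    have hgL : g ∈ L := IntermediateField.subset_adjoin _ _ (by simp)
    have hess : Algebra.EssFiniteType (ZMod p) L :=
      IntermediateField.essFiniteType_iff.2 ⟨{f, g}, by simp [hL]⟩
    have htr1 : Algebra.trdeg (ZMod p) L ≤ 1 :=
      (trdeg_le_of_injective L.val L.val.toRingHom.injective).trans htr
    have htr2 : 1 ≤ Algebra.trdeg (ZMod p) L := by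
      have h1 : AlgebraicIndependent (ZMod p) (fun _ : Unit => (⟨g, hgL⟩ : L)) := by
        rw [algebraicIndependent_unique_type_iff]
        intro h2
        exact halg (h2.algHom L.val)
      simpa using h1.cardinalMk_le_trdeg
    have hK : FF.IsFF (ZMod p) L := ⟨hess, le_antisymm htr1 htr2⟩
    obtain ⟨A, Z, S, hA⟩ := hFF (ZMod p) L
    set φ : L →+* F := algebraMap L F with hφ
    set Q' : MultilinearMap ℤ (fun _ : Fin (m + 1) => UV L) (UV L →ₗ[ℤ] ℚ) :=
      (LinearMap.lcomp ℤ ℚ (clMap φ)).compMultilinearMap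
        (Q.compLinearMap (fun _ => clMap φ)) with hQ'
    have hQ'a : ∀ s v, Q' (fun _ => s) v = Q (fun _ => clMap φ s) (clMap φ v) :=
      fun s v => rfl
    have h4 := hSD A Z L S m Q' (by
      intro h hh0 hh1
      rw [hQ'a, clMap_cl, clMap_cl, map_sub, map_one]
      apply hQ
      · rw [Ne, map_eq_zero]; exact hh0
      · intro h5
        exact hh1 (φ.injective (by rw [h5, map_one]))) (cl ⟨f, hfL⟩) (cl ⟨g, hgL⟩)
    rw [hQ'a, clMap_cl, clMap_cl] at h4
    exact h4

end Pool.Agent.T9h77.GG
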